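import Pool.Agent.U165.SC.Main

set_option autoImplicit false

/-!
# The scaled stopping time constant of the randomly perturbed 3x+1 map is at most `γ_RRW`

The map is fixed: it is the accelerated 3x+1 map `T` on the integers.  To the value at each integer `x` a bounded
random integer `ω x` is added, which is odd with probability `1/2` (for instance `0` or `1`, with probability `1/2`
each); the `ω x`, `x ∈ ℤ`, are independent, and are chosen once and for all, so `x ↦ T x + ω x` is a fixed map.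

1. Almost surely all orbits are finite, and for every `ε > 0` all `x` with `|x|` large reach a cycle after at most
   `(γ₀ + ε) log |x|` steps, the orbit having at most `(γ₀ + ε) log |x|` elements, where `γ₀ = 41.677...` is the
   constant `γ_RRW` of the repeated random walk model.  This is the upper half of the conjecture `γ = γ_RRW`.
2. The upper half of the large deviation law of the model: at most `X^e` of the integers `|x| ≤ X` have an orbit
   with at least `α log |x|` elements, for every `e > max (0, 1 - α g(1/α))` and large `X`.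
3. The same, with the corresponding constants, for all generalized 3x+1 maps with positive multipliers (not only those
   of relatively prime type), if the perturbations are bounded and their residues modulo `d` are equidistributed.

Proof: `(a_(x mod d) |x|)^θ` is, up to a factor close to `1` for large `|x|`, an eigenfunction of the annealed chain,
with the eigenvalue `λ(θ) = (1/d) ∑ (m_j/d)^θ`; the optimal `θ` gives the constant.  The true orbits are compared
with the annealed chain up to their first repetition (project RP, helper762, helper511, helper97, helper898).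
-/

namespace Pool.Agent.Results.MP_f7abf1_nt.PerturbedUpperHalf

open MeasureTheory Filter Finset
open scoped ENNReal

/-- The accelerated `3x+1` map on the integers. -/
def T (x : ℤ) : ℤ := if x % 2 = 0 then x / 2 else (3 * x + 1) / 2

/-- The generalized 3x+1 map: `(m_j x - r_j)/d` for `x ≡ j` modulo `d`. -/
def gen (d : ℕ) (m r : ℤ → ℤ) (x : ℤ) : ℤ := (m (x % d) * x - r (x % d)) / d

/-- The conditions on the generalized 3x+1 map: `d ≥ 2`, the `m_j` are positive and the divisions are exact. The map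
need not be of relatively prime type. -/
structure Collatz (d : ℕ) (m r : ℤ → ℤ) : Prop where
  two_le : 2 ≤ d
  pos : ∀ j : ℤ, 0 ≤ j → j < d → 0 < m j
  dvd : ∀ j : ℤ, 0 ≤ j → j < d → (d : ℤ) ∣ m j * j - r j

/-- The map `S` perturbed by `ω`. -/
def pert (S ω : ℤ → ℤ) (x : ℤ) : ℤ := S x + ω x

/-- The orbit of `x` under the perturbed map. -/
def orbit (S ω : ℤ → ℤ) (x : ℤ) : Set ℤ := Set.range fun i : ℕ => (pert S ω)^[i] x

/-- The conditions on the law of the perturbations: they are bounded by `B`, and their residues modulo `d` are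
equidistributed. -/
structure Law (d B : ℕ) (μ : Measure ℤ) : Prop where
  bdd : μ {u : ℤ | (B : ℤ) < |u|} = 0
  equi : ∀ j : ℤ, 0 ≤ j → j < d → μ {u : ℤ | u % (d : ℤ) = j} = (d : ℝ≥0∞)⁻¹

/-- The law of independent perturbations `ω x`, `x ∈ ℤ`, each with law `μ`. -/
noncomputable def environment (μ : Measure ℤ) [IsProbabilityMeasure μ] : Measure (ℤ → ℤ) :=
  Measure.infinitePi fun _ : ℤ => μ

/-- `g(a) = sup_θ (θ a - log (½ (2^θ + (2/3)^θ)))`. -/
noncomputable def g (a : ℝ) : ℝ :=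
  ⨆ θ : ℝ, (θ * a - Real.log ((1 / 2) * ((2 : ℝ) ^ θ + (2 / 3 : ℝ) ^ θ)))

/-- `λ(θ) = (1/d) ∑_(j < d) (m_j/d)^θ`. -/
noncomputable def lam (d : ℕ) (m : ℤ → ℤ) (θ : ℝ) : ℝ :=
  (∑ j ∈ range d, ((m (j : ℤ) : ℝ) / d) ^ θ) / d

theorem pert_T (ω : ℤ → ℤ) : Pool.Agent.U762.RP.stp 2 (Pool.Agent.U762.RP.mq 3) Pool.Agent.U762.RP.rq ω =
    pert T ω := by
  rw [Pool.Agent.U165.SC.stp_col]
  funext x
  unfold pert T Pool.Agent.U762.RP.col
  norm_num

theorem result :
    (∃ γ₀ : ℝ, (41.6776 < γ₀ ∧ γ₀ < 41.6777) ∧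
      (γ₀ > ((1 / 2) * Real.log (4 / 3))⁻¹ ∧ γ₀ * g (1 / γ₀) = 1) ∧
      (∀ γ : ℝ, γ > ((1 / 2) * Real.log (4 / 3))⁻¹ → γ * g (1 / γ) = 1 → γ = γ₀) ∧
      ∀ (B : ℕ) (μ : Measure ℤ) [IsProbabilityMeasure μ], Law 2 B μ →
        (∀ᵐ ω ∂(environment μ), (∀ x : ℤ, (orbit T ω x).Finite) ∧
          ∀ ε : ℝ, 0 < ε → ∃ N : ℕ, ∀ x : ℤ, (N : ℤ) ≤ |x| →
            ((orbit T ω x).ncard : ℝ) ≤ (γ₀ + ε) * Real.log |(x : ℝ)| ∧
            ∃ k : ℕ, (k : ℝ) ≤ (γ₀ + ε) * Real.log |(x : ℝ)| ∧
              (pert T ω)^[k] x ∈ Function.periodicPts (pert T ω)) ∧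
        ∀ α : ℝ, α > ((1 / 2) * Real.log (4 / 3))⁻¹ → ∀ᵐ ω ∂(environment μ),
          ∀ e : ℝ, 0 < e → e < 1 → 1 - α * g (1 / α) < e → ∃ X₀ : ℝ, ∀ X : ℝ, X₀ ≤ X →
            ({x : ℤ | |(x : ℝ)| ≤ X ∧ α * Real.log |(x : ℝ)| ≤ (orbit T ω x).ncard}.ncard : ℝ) ≤
              X ^ e) ∧
    (∀ (d : ℕ) (m r : ℤ → ℤ), Collatz d m r →
      ∀ (B : ℕ) (μ : Measure ℤ) [IsProbabilityMeasure μ], Law d B μ →
        ∀ θ α : ℝ, 0 < θ → lam d m θ < 1 → 0 < α →
          ((1 + θ < α * -Real.log (lam d m θ)) → ∀ᵐ ω ∂(environment μ), ∃ C : ℝ, ∀ x : ℤ,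
            (orbit (gen d m r) ω x).Finite ∧
            ((orbit (gen d m r) ω x).ncard : ℝ) ≤ α * Real.log (2 + |(x : ℝ)|) + C) ∧
          ∀ E : ℝ, 0 ≤ E → 1 + θ + α * Real.log (lam d m θ) < E → ∀ᵐ ω ∂(environment μ),
            ∃ C : ℝ, ∀ X : ℝ, 1 ≤ X →
              ({x : ℤ | |(x : ℝ)| ≤ X ∧ α * Real.log (2 + |(x : ℝ)|) + C <
                (orbit (gen d m r) ω x).ncard}.ncard : ℝ) ≤ C * X ^ E) := by
  refine ⟨?_, ?_⟩
  · obtain ⟨γ₀, hnum, hγ, huniq, -⟩ := Pool.Agent.H395R2.G3.exists_gamma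
    refine ⟨γ₀, hnum, hγ, huniq, ?_⟩
    intro B μ _ hL
    have hR0 := Pool.Agent.U762.RP.rel_col (q := 3) (by decide)
    have hR : Pool.Agent.U165.SC.GenC 2 (Pool.Agent.U762.RP.mq 3) Pool.Agent.U762.RP.rq :=
      ⟨hR0.two_le, hR0.pos, hR0.dvd⟩
    refine ⟨?_, ?_⟩
    · have h := Pool.Agent.U165.SC.gamma_bound B μ hR hL.bdd hL.equi hγ.1 hγ.2
      unfold environment
      filter_upwards [h] with ω hω
      rw [pert_T] at hω
      exact hω
    · intro α hα
      have h := Pool.Agent.U165.SC.ld_bound B μ hR hL.bdd hL.equi hα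
      unfold environment
      filter_upwards [h] with ω hω e he0 he1 he2
      rw [pert_T] at hω
      obtain ⟨X₀, -, hX⟩ := hω e he0 he1 he2
      exact ⟨X₀, fun X h => (hX X h).2⟩
  · intro d m r hC B μ _ hL θ α hθ hlam hα
    have hR : Pool.Agent.U165.SC.GenC d m r := ⟨hC.two_le, hC.pos, hC.dvd⟩
    refine ⟨fun hc => ?_, fun E hE0 hE1 => ?_⟩
    · exact Pool.Agent.U165.SC.gen hR B μ hL.bdd hL.equi hθ hlam hc
    · have h := Pool.Agent.U165.SC.ld hR B μ hL.bdd hL.equi hθ hlam hα hE0 hE1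
      unfold environment
      filter_upwards [h] with ω hω
      obtain ⟨C, -, hC⟩ := hω
      exact ⟨C, fun X hX => (hC X hX).2⟩

end Pool.Agent.Results.MP_f7abf1_nt.PerturbedUpperHalf
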