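import Pool.Agent.U339.LV.D

/-!
Sums of sequences over the levels of the total stopping time of the `3x+1` function.
-/

set_option autoImplicit false

namespace Pool.Agent.Results.MP_f7abf1_nt.SequencesOnLevels

open Finset Filter Topology

/-- The `3x+1` function. -/
def T (n : ℕ) : ℕ := if n % 2 = 0 then n / 2 else (3 * n + 1) / 2

/-- `k` is the total stopping time of `n`. -/
def IsTotalStoppingTime (n k : ℕ) : Prop := T^[k] n = 1 ∧ ∀ i < k, T^[i] n ≠ 1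

open Classical in
/-- The LEVEL: the integers `1 ≤ n ≤ N` with total stopping time exactly `k`. -/
noncomputable def level (k N : ℕ) : Finset ℕ := {n ∈ Icc 1 N | IsTotalStoppingTime n k}

/-- The mean of `v` over the window `[n, n + h)`. -/
noncomputable def win {E : Type} [NormedAddCommGroup E] [NormedSpace ℝ E] (v : ℕ → E) (h n : ℕ) : E :=
  (h : ℝ)⁻¹ • ∑ j ∈ range h, v (n + j)

/-- The mean of `v` over the level. -/
noncomputable def mean {E : Type} [NormedAddCommGroup E] [NormedSpace ℝ E] (v : ℕ → E) (k N : ℕ) : E :=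
  (#(level k N) : ℝ)⁻¹ • ∑ n ∈ level k N, v n

/-- THE BULK: `|k - μ log N| ≤ K √(log N)`, `μ = 2 / log (4/3)`. -/
def Bulk (K : ℝ) (k N : ℕ) : Prop := |(k : ℝ) - 2 / Real.log (4 / 3) * Real.log N| ≤ K * √ (Real.log N)

theorem level_eq (k N : ℕ) : level k N = Pool.Agent.U339.LV.Lv k N := rfl

/-- SEQUENCES ON THE LEVELS OF THE TOTAL STOPPING TIME. The level `(k, N)` is the set of the `1 ≤ n ≤ N`
with total stopping time exactly `k`.
(1) ALL LEVELS. If `‖v n‖ ≤ 1` and all means of `v` over windows of length `h` are within `η` of `c`, the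
sum of `v n - c` over the level has norm at most
`η #level + C √((1 + log h) log log N) N / (log N)^(3/4)`; `C` is absolute: it does not depend on `k`, `N`,
the normed space, `v`, `c`, `η`, `h`.
(2) SIZE. For every `K` the levels with `|k - μ log N| ≤ K √(log N)` have between `c N / √(log N)` and
`C N / √(log N)` elements (the upper bound holds for all `k`), so that in (1) the last term is of relative
size `√((1 + log h) log log N) / (log N)^(1/4)`.
(3) EVERY LEVEL OF THE BULK. Hence, if the window means of the sequences `v i` of a uniformly bounded family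
converge to `c i`, uniformly in the window and in `i`, the means of `v i` over the levels converge to
`c i` uniformly in `i` and in `k`, `|k - μ log N| ≤ K √(log N)`. (Uniquely ergodic systems, with `i` the
starting point.)
(4) MEAN ERGODIC THEOREM. For a linear contraction `U` of a real Hilbert space the means of `U^n x`
over the levels of the bulk converge to the projection of `x` to the fixed space, uniformly in `k`.
(5) BOUNDED PARTIAL SUMS. If `‖v n‖ ≤ 1` and the partial sums of `v` are bounded by `B`, the sum of `v`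
over EVERY level is at most `C √(log (2 + B)) (log log N) N / (log N)^(3/4)`; for instance for
`v n = z ^ n`, `|z| = 1`, `z ≠ 1`, with `B = 2 / |z - 1|`, and for `v n = z ^ s_b(n)`, `s_b` the sum of the
digits in the base `b` and `z ^ b = 1`, `z ≠ 1`, with `B = b`. -/
theorem result :
    (∃ C : ℝ, 0 < C ∧ ∀ N : ℕ, 16 ≤ N → ∀ k : ℕ, ∀ (E : Type) [NormedAddCommGroup E] [NormedSpace ℝ E]
      (v : ℕ → E) (c : E) (η : ℝ) (h : ℕ), 1 ≤ h → (∀ n, ‖v n‖ ≤ 1) → (∀ n, ‖win v h n - c‖ ≤ η) →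
      ‖∑ n ∈ level k N, (v n - c)‖ ≤ η * #(level k N) +
        C * (√ ((1 + Real.log h) * Real.log (Real.log N)) * (N / Real.log N ^ (3 / 4 : ℝ)))) ∧
    ((∃ C : ℝ, 0 < C ∧ ∀ N : ℕ, 2 ≤ N → ∀ k : ℕ, (#(level k N) : ℝ) ≤ C * (N / √ (Real.log N))) ∧
      ∀ K : ℝ, ∃ c : ℝ, 0 < c ∧ ∃ N₀ : ℕ, ∀ N : ℕ, N₀ ≤ N → ∀ k : ℕ, Bulk K k N →
        c * (N / √ (Real.log N)) ≤ #(level k N)) ∧
    (∀ (E : Type) [NormedAddCommGroup E] [NormedSpace ℝ E] (ι : Type) (v : ι → ℕ → E) (c : ι → E) (M : ℝ),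
      (∀ i n, ‖v i n‖ ≤ M) →
      (∀ ε : ℝ, 0 < ε → ∃ h : ℕ, 1 ≤ h ∧ ∀ i n, ‖win (v i) h n - c i‖ ≤ ε) →
      ∀ K ε : ℝ, 0 < ε → ∃ N₀ : ℕ, ∀ N : ℕ, N₀ ≤ N → ∀ k : ℕ, Bulk K k N →
        ∀ i, ‖mean (v i) k N - c i‖ ≤ ε) ∧
    (∀ (X : Type) [NormedAddCommGroup X] [InnerProductSpace ℝ X] [CompleteSpace X] (U : X →L[ℝ] X), ‖U‖ ≤ 1 →
      ∀ x : X, ∃ y : X, U y = y ∧ (∀ z : X, U z = z → inner ℝ z (x - y) = 0) ∧
        ∀ K ε : ℝ, 0 < ε → ∃ N₀ : ℕ, ∀ N : ℕ, N₀ ≤ N → ∀ k : ℕ, Bulk K k N →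
          ‖mean (fun n => (U ^ n) x) k N - y‖ ≤ ε) ∧
    (∃ C : ℝ, 0 < C ∧ ∀ N : ℕ, 16 ≤ N → ∀ k : ℕ,
      (∀ (E : Type) [NormedAddCommGroup E] [NormedSpace ℝ E] (v : ℕ → E) (B : ℝ), (∀ n, ‖v n‖ ≤ 1) →
        (∀ n, ‖∑ i ∈ range n, v i‖ ≤ B) → ‖∑ n ∈ level k N, v n‖ ≤
          C * (√ (Real.log (2 + B)) * Real.log (Real.log N) * (N / Real.log N ^ (3 / 4 : ℝ)))) ∧
      (∀ z : ℂ, ‖z‖ = 1 → z ≠ 1 → ‖∑ n ∈ level k N, z ^ n‖ ≤
          C * (√ (Real.log (2 + 2 / ‖z - 1‖)) * Real.log (Real.log N) * (N / Real.log N ^ (3 / 4 : ℝ)))) ∧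
      (∀ (b : ℕ) (z : ℂ), 2 ≤ b → z ^ b = 1 → z ≠ 1 → ‖∑ n ∈ level k N, z ^ (Nat.digits b n).sum‖ ≤
          C * (√ (Real.log (2 + b)) * Real.log (Real.log N) * (N / Real.log N ^ (3 / 4 : ℝ))))) := by
  refine ⟨?_, ⟨?_, ?_⟩, ?_, ?_, ?_⟩
  · exact Pool.Agent.U339.LV.master
  · exact Pool.Agent.U339.LV.Lv_up
  · intro K
    obtain ⟨c, N0, hc, _, h⟩ := Pool.Agent.U339.LV.Lv_low K
    exact ⟨c, hc, N0, h⟩
  · intro E _ _ ι v c M hM hw K ε hε
    obtain ⟨N0, h⟩ := Pool.Agent.U339.LV.bulk v c hM hw K hε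
    exact ⟨N0, fun N hN k hk => (h N hN k hk).2⟩
  · intro X _ _ _ U hU x
    obtain ⟨y, h1, h2, h3, h4⟩ := Pool.Agent.U339.LV.hilb U hU x
    refine ⟨y, h1, h2, fun K ε hε => ?_⟩
    obtain ⟨N0, h⟩ := Pool.Agent.U339.LV.bulk (ι := Unit) (fun _ n => (U ^ n) x) (fun _ => y) (M := ‖x‖)
      (fun _ n => h3 n) (fun ε hε => by
        obtain ⟨m, hm, h5⟩ := h4 ε hε
        exact ⟨m, hm, fun _ n => h5 n⟩) K hε
    exact ⟨N0, fun N hN k hk => (h N hN k hk).2 ()⟩
  · obtain ⟨C, hC, h⟩ := Pool.Agent.U339.LV.partial_rate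
    refine ⟨C, hC, fun N hN k => ⟨fun E _ _ v B hv hB => h N hN k E v B hv hB, fun z hz h1 => ?_,
      fun b z hb hz h1 => ?_⟩⟩
    · exact h N hN k ℂ (fun n => z ^ n) _ (fun n => by rw [norm_pow, hz, one_pow])
        (fun n => Pool.Agent.U339.LV.geo_partial hz h1 n)
    · have hb0 : 0 < b := by omega
      have hnorm : ‖z‖ = 1 := by
        have : ‖z‖ ^ b = 1 := by rw [← norm_pow, hz, norm_one]
        exact (pow_eq_one_iff_of_nonneg (norm_nonneg z) hb0.ne').1 this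
      exact h N hN k ℂ (fun n => z ^ (Nat.digits b n).sum) _ (fun n => by rw [norm_pow, hnorm, one_pow])
        (fun n => Pool.Agent.U339.LV.digit_partial hb hz h1 n)

end Pool.Agent.Results.MP_f7abf1_nt.SequencesOnLevels
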