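import Pool.Agent.U596.KR9

set_option autoImplicit false

/-!
# The scaled total stopping times of the products of exactly `k` primes

For `k ≥ 2` the total stopping times of the integers with exactly `k` prime factors, all of them greater
than a small power of the size, follow the normal law of the total stopping times of all integers,
with the same frequency `1 - δ` of infinite total stopping times. This holds uniformly for the products of
`k` primes from an arbitrary set of primes, in every residue class.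

A number of prime factors prescribed exactly is out of reach of the sieve (parity problem). The proof
estimates bilinear sums `∑ ∑ α p β q F (c p q)` over primes `p`, `q` for functions `F` which are constant on
coalescing trajectories above a large fixed height; the events on total stopping times are not of
this kind, they are approximated by such functions at every scale.
-/

namespace Pool.Agent.Results.MP_f7abf1_nt.TimesExactlyKPrimes

open Filter Topology ArithmeticFunction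

/-- the `3x+1` function -/
def T (n : ℕ) : ℕ := if n % 2 = 0 then n / 2 else (3 * n + 1) / 2

/-- `t` is the total stopping time of `n` -/
def IsTotalStoppingTime (n t : ℕ) : Prop := T^[t] n = 1 ∧ ∀ j < t, T^[j] n ≠ 1

/-- the number of odd terms among `n, T n, ..., T^(k-1) n` -/
def odds (k n : ℕ) : ℕ := ((Finset.range k).filter fun i => T^[i] n % 2 = 1).card

/-- the positive integers with the property `P` have the natural density `δ` -/
def HasDensity (P : ℕ → Prop) (δ : ℝ) : Prop :=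
  Tendsto (fun N : ℕ => ({n : ℕ | 1 ≤ n ∧ n ≤ N ∧ P n}.ncard : ℝ) / N) atTop (𝓝 δ)

/-- `(½ log (4/3))⁻¹ + x * log 3 * √(2 / ((log (4/3))^3 log n))` -/
noncomputable def bound (x : ℝ) (n : ℕ) : ℝ :=
  (1 / 2 * Real.log (4 / 3))⁻¹ + x * (Real.log 3 * Real.sqrt (2 / (Real.log (4 / 3) ^ 3 * Real.log n)))

/-- The distribution function of the standard normal law. -/
noncomputable def Phi (x : ℝ) : ℝ :=
  ProbabilityTheory.cdf (ProbabilityTheory.gaussianReal 0 1) x

/-- The total stopping time of `n` is finite and `≡ a` modulo `m`, the number of odd terms before `1`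
is `≡ b` modulo `m`, and the scaled total stopping time is at most `bound x n`. -/
def Level (m : ℕ) (a b : ℤ) (x : ℝ) (n : ℕ) : Prop :=
  ∃ t : ℕ, (t : ℝ) / Real.log n ≤ bound x n ∧ IsTotalStoppingTime n t ∧
    (t : ℤ) ≡ a [ZMOD m] ∧ (odds t n : ℤ) ≡ b [ZMOD m]

/-- The integers up to `N` with exactly `k` prime factors (with multiplicity), all of them greater
than `N ^ θ`. -/
def E (k : ℕ) (θ : ℝ) (N : ℕ) : Set ℕ :=
  {n | 1 ≤ n ∧ n ≤ N ∧ cardFactors n = k ∧ ∀ p : ℕ, p.Prime → p ∣ n → (N : ℝ) ^ θ < p}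

/-- The integers congruent to `r` modulo `Q` all of whose prime factors are in `S`. -/
def W (S : Set ℕ) (Q r : ℕ) : Set ℕ := {n | n % Q = r % Q ∧ ∀ p : ℕ, p.Prime → p ∣ n → p ∈ S}

/-- THE FREQUENCIES of the pairs `(P, l)` in the family `F`: for all `k ≥ 2`, `Q ≥ 1` and `ε > 0`, all small
enough `θ > 0` and all `N ≥ N₀ (k, Q, ε, θ)`, uniformly for all pairs `(P, l)` in `F`, all sets `S` of primes
and all `r`: among the integers `n ≤ N` with exactly `k` prime factors, all greater than `N ^ θ` and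
all in `S`, and `n ≡ r` modulo `Q`, the number of those with the property `P` is `l` times their
number, up to `ε` times the number of all `n ≤ N` with exactly `k` prime factors, all greater than
`N ^ θ`. -/
def Frequencies (F : Set ((ℕ → Prop) × ℝ)) : Prop := ∀ k Q : ℕ, 2 ≤ k → 1 ≤ Q → ∀ ε : ℝ, 0 < ε →
  ∃ θ₀ : ℝ, 0 < θ₀ ∧ ∀ θ : ℝ, 0 < θ → θ ≤ θ₀ → ∃ N₀ : ℕ, ∀ N : ℕ, N₀ ≤ N →
    ∀ (S : Set ℕ) (r : ℕ), ∀ P ∈ F,
    |((E k θ N ∩ W S Q r ∩ {n | P.1 n}).ncard : ℝ) - P.2 * (E k θ N ∩ W S Q r).ncard| ≤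
      ε * (E k θ N).ncard

theorem bound_iff (x : ℝ) {n : ℕ} (hn : 1 < n) (t : ℕ) :
    (t : ℝ) / Real.log n ≤ bound x n ↔ (t : ℝ) ≤ Pool.Agent.H499R2.HL.bk x (Real.log n) := by
  have hL : 0 < Real.log n := Real.log_pos (by exact_mod_cast hn)
  have hnu : 0 < Real.log (4 / 3) := Real.log_pos (by norm_num)
  rw [div_le_iff₀ hL]
  have e : bound x n * Real.log n = Pool.Agent.H499R2.HL.bk x (Real.log n) := by
    unfold bound Pool.Agent.H499R2.HL.bk
    have h1 : Real.sqrt (2 * Real.log n / Real.log (4 / 3) ^ 3)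
        = Real.sqrt (2 / (Real.log (4 / 3) ^ 3 * Real.log n)) * Real.log n := by
      have h2 : 2 * Real.log n / Real.log (4 / 3) ^ 3
          = 2 / (Real.log (4 / 3) ^ 3 * Real.log n) * Real.log n ^ 2 := by field_simp
      rw [h2, Real.sqrt_mul (by positivity), Real.sqrt_sq hL.le]
    rw [h1, add_mul]
    congr 1
    · field_simp
    · ring
  rw [e]

open Pool.Agent.U596.KF in
theorem freq_iff (F : Set ((ℕ → Prop) × ℝ)) : Frequencies F ↔ KFr F := Iff.rfl

open Pool.Agent.U596.KF in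
/-- the change of the events at small integers -/
theorem freq_ext {F F' : Set ((ℕ → Prop) × ℝ)} (n1 : ℕ) (h : Frequencies F)
    (hF : ∀ P' ∈ F', ∃ P ∈ F, P'.2 = P.2 ∧ ∀ n, n1 ≤ n → (P'.1 n ↔ P.1 n)) : Frequencies F' := by
  intro k Q hk hQ ε hε
  obtain ⟨θ0, h1, h2⟩ := h k Q hk hQ ε hε
  refine ⟨θ0, h1, fun θ a1 a2 => ?_⟩
  obtain ⟨N0, h3⟩ := h2 θ a1 a2
  obtain ⟨N2, h7⟩ := E_large hk a1 n1
  refine ⟨N0 + N2, fun N hN S r P' hP' => ?_⟩
  obtain ⟨P, hP, e1, e2⟩ := hF P' hP'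
  have h8 := h3 N (by omega) S r P hP
  have h9 := h7 N (by omega)
  have e3 : E k θ N ∩ W S Q r ∩ {n | P'.1 n} = E k θ N ∩ W S Q r ∩ {n | P.1 n} := by
    ext n
    simp only [Set.mem_inter_iff, Set.mem_setOf_eq]
    constructor
    · rintro ⟨⟨g1, g2⟩, g3⟩
      exact ⟨⟨g1, g2⟩, (e2 n (h9 n g1)).1 g3⟩
    · rintro ⟨⟨g1, g2⟩, g3⟩
      exact ⟨⟨g1, g2⟩, (e2 n (h9 n g1)).2 g3⟩
  rw [e3, e1]
  exact h8

/-- THE NORMAL LAW OF THE TOTAL STOPPING TIMES OF THE PRODUCTS OF EXACTLY `k` PRIMES.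
Let `δ > 0` be the natural density of the positive integers with finite total stopping time (`δ = 1`
if and only if all are of this kind; this is known). In the sense of `Frequencies` (along the integers
`n ≤ N` with exactly `k ≥ 2` prime factors, all greater than `N ^ θ`, uniformly for the products of `k` primes
from an arbitrary set of primes, in every residue class):
(1) the `n` with infinite total stopping time have frequency `1 - δ`;
(2) the `n` with finite total stopping time `≡ a` and number of odd terms before `1` `≡ b` modulo `m`,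
and scaled total stopping time at most `(½ log (4/3))⁻¹ + x log 3 √(2 / ((log (4/3))^3 log n))`, have
frequency `δ Φ(x) / m²`, uniformly in the real number `x` and in `a`, `b`;
(3) for every `η > 0` the `n` with scaled total stopping time within `η` of `2 / log (4/3)` have
frequency `δ`.
(4) The number of the `n ≤ N` with exactly `k` prime factors, all greater than `N ^ θ`, is at least
`c(k) N / log N` for `N ≥ N₀ (k, θ)`, for all small enough `θ > 0`.
(5) Let `k ≥ 2`. All total stopping times are finite if and only if those of the integers with exactly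
`k` prime factors are, and even if for infinitely many `N` the number of the `n ≤ N` with exactly `k`
prime factors and infinite total stopping time is at most `ψ N * (N / log N)`, where `ψ N → 0`. -/
theorem result : ∃ δ : ℝ, 0 < δ ∧ δ ≤ 1 ∧ (δ = 1 ↔ ∀ n : ℕ, 1 ≤ n → ∃ t, IsTotalStoppingTime n t) ∧
    HasDensity (fun n => ∃ t, IsTotalStoppingTime n t) δ ∧
    Frequencies {((fun n => ¬ ∃ t, IsTotalStoppingTime n t), 1 - δ)} ∧
    (∀ m : ℕ, 1 ≤ m → Frequencies {P | ∃ (a b : ℤ) (x : ℝ), P = (Level m a b x, δ * Phi x / m ^ 2)}) ∧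
    (∀ η : ℝ, 0 < η → Frequencies {((fun n : ℕ => ∃ t : ℕ, IsTotalStoppingTime n t ∧
      |(t : ℝ) / Real.log n - 2 / Real.log (4 / 3)| ≤ η), δ)}) ∧
    ∀ k : ℕ, 2 ≤ k →
      (∃ c : ℝ, 0 < c ∧ ∃ θ₀ : ℝ, 0 < θ₀ ∧ ∀ θ : ℝ, 0 < θ → θ ≤ θ₀ → ∃ N₀ : ℕ, ∀ N : ℕ, N₀ ≤ N →
        c * (N / Real.log N) ≤ (E k θ N).ncard) ∧
      ((∀ n : ℕ, 1 ≤ n → ∃ t, IsTotalStoppingTime n t) ↔
        ∀ n : ℕ, cardFactors n = k → ∃ t, IsTotalStoppingTime n t) ∧
      (∀ ψ : ℕ → ℝ, Tendsto ψ atTop (𝓝 0) → (∃ᶠ N : ℕ in atTop,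
        ({n : ℕ | 1 ≤ n ∧ n ≤ N ∧ cardFactors n = k ∧ ¬ ∃ t, IsTotalStoppingTime n t}.ncard : ℝ) ≤
          ψ N * (N / Real.log N)) → ∀ n : ℕ, 1 ≤ n → ∃ t, IsTotalStoppingTime n t) := by
  obtain ⟨δ, h0, h1, h2, h3, h4, h5, h6⟩ := Pool.Agent.U596.KF.lawsK
  have hiff : ∀ n : ℕ, (∃ k : ℕ, T^[k] n = 1) ↔ ∃ t, IsTotalStoppingTime n t :=
    Pool.Agent.Y964.LW.hit_iff
  have hδiff : δ = 1 ↔ ∀ n : ℕ, 1 ≤ n → ∃ t, IsTotalStoppingTime n t :=
    h2.trans (forall₂_congr fun n _ => hiff n)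
  have hinf : Frequencies {((fun n => ¬ ∃ t, IsTotalStoppingTime n t), 1 - δ)} :=
    Pool.Agent.U596.KF.KFr_not h4
  have hcrit : ∀ k : ℕ, 2 ≤ k → ∀ ψ : ℕ → ℝ, Tendsto ψ atTop (𝓝 0) → (∃ᶠ N : ℕ in atTop,
        ({n : ℕ | 1 ≤ n ∧ n ≤ N ∧ cardFactors n = k ∧ ¬ ∃ t, IsTotalStoppingTime n t}.ncard : ℝ) ≤
          ψ N * (N / Real.log N)) → ∀ n : ℕ, 1 ≤ n → ∃ t, IsTotalStoppingTime n t := by
    intro k hk ψ hψ hfr
    rw [← hδiff]
    by_contra hne
    have hδ : 0 < 1 - δ := by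
      rcases h1.lt_or_eq with h | h
      · linarith
      · exact absurd h hne
    obtain ⟨c, hc, θ0, hθ0, hlow⟩ := Pool.Agent.U596.KF.E_low hk
    obtain ⟨θ1, hθ1, hfreq⟩ := hinf k 1 hk le_rfl ((1 - δ) / 2) (by linarith)
    obtain ⟨N0, hN0⟩ := hlow (min θ0 θ1) (lt_min hθ0 hθ1) (min_le_left _ _)
    obtain ⟨N1, hN1⟩ := hfreq (min θ0 θ1) (lt_min hθ0 hθ1) (min_le_right _ _)
    generalize min θ0 θ1 = θ at hN0 hN1
    have hev : ∀ᶠ N : ℕ in atTop, (N0 ≤ N ∧ N1 ≤ N) ∧ 3 ≤ N ∧ ψ N < (1 - δ) / 2 * c :=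
      ((eventually_ge_atTop N0).and (eventually_ge_atTop N1)).and ((eventually_ge_atTop 3).and
        (hψ.eventually (gt_mem_nhds (by positivity))))
    obtain ⟨N, g1, ⟨g2, g3⟩, g4, g5⟩ := (hfr.and_eventually hev).exists
    have g6 := hN0 N g2
    have g7 := hN1 N g3 Set.univ 0 _ rfl
    have e1 : E k θ N ∩ W Set.univ 1 0 = E k θ N := by
      ext n
      simp only [Set.mem_inter_iff, W, Set.mem_setOf_eq, Set.mem_univ, implies_true, and_true, Nat.mod_one]
    rw [e1, abs_le] at g7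
    have g8 : ((E k θ N ∩ {n | ¬ ∃ t, IsTotalStoppingTime n t}).ncard : ℝ) ≤
        ({n : ℕ | 1 ≤ n ∧ n ≤ N ∧ cardFactors n = k ∧ ¬ ∃ t, IsTotalStoppingTime n t}.ncard : ℝ) := by
      have : (E k θ N ∩ {n | ¬ ∃ t, IsTotalStoppingTime n t}).ncard ≤
          {n : ℕ | 1 ≤ n ∧ n ≤ N ∧ cardFactors n = k ∧ ¬ ∃ t, IsTotalStoppingTime n t}.ncard := by
        apply Set.ncard_le_ncard
        · rintro n ⟨⟨a1, a2, a3, -⟩, a4⟩
          exact ⟨a1, a2, a3, a4⟩
        · exact (Set.finite_Icc 1 N).subset fun n hn => ⟨hn.1, hn.2.1⟩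
      exact_mod_cast this
    have g9 : (3 : ℝ) ≤ N := by exact_mod_cast g4
    have g10 : 0 < (N : ℝ) / Real.log N := div_pos (by linarith) (Real.log_pos (by linarith))
    have g11 : ψ N * (N / Real.log N) < (1 - δ) / 2 * c * (N / Real.log N) := mul_lt_mul_of_pos_right g5 g10
    have g12 : (1 - δ) / 2 * (c * (N / Real.log N)) ≤ (1 - δ) / 2 * (E k θ N).ncard :=
      mul_le_mul_of_nonneg_left g6 (by linarith)
    have g13 := g7.1
    simp only at g13
    linarith
  refine ⟨δ, h0, h1, hδiff, ?_, hinf, fun m hm => ?_, fun η hη => ?_, fun k hk =>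
    ⟨Pool.Agent.U596.KF.E_low hk, ⟨?_, ?_⟩, hcrit k hk⟩⟩
  · exact Pool.Agent.H499R2.LT.Dn_iff (fun n _ => hiff n) h3
  · refine freq_ext 2 ((freq_iff _).2 (h5 m hm).1) ?_
    rintro P' ⟨a, b, x, rfl⟩
    refine ⟨_, ⟨a, b, x, rfl⟩, ?_, fun n hn => exists_congr fun t => ?_⟩
    · unfold Phi
      simp only
      rw [← Pool.Agent.H499R2.ND.phi_cdf]
      ring
    · rw [bound_iff x (by omega) t]
      show _ ∧ (_ ∧ _) ∧ _ ∧ _ ↔ (_ ∧ _) ∧ _ ∧ _ ∧ _
      constructor
      · rintro ⟨g1, g2, g3⟩; exact ⟨g2, g1, g3⟩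
      · rintro ⟨g1, g2, g3⟩; exact ⟨g2, g1, g3⟩
  · refine freq_ext 2 ((freq_iff _).2 (h6 η hη).1) ?_
    rintro P' hP'
    rw [Set.mem_singleton_iff] at hP'
    subst hP'
    refine ⟨_, rfl, rfl, fun n hn => exists_congr fun t => and_congr_right fun _ => ?_⟩
    have hL : 0 < Real.log n := Real.log_pos (by exact_mod_cast (by omega : 1 < n))
    have e : (t : ℝ) - 2 / Real.log (4 / 3) * Real.log n =
        ((t : ℝ) / Real.log n - 2 / Real.log (4 / 3)) * Real.log n := by field_simp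
    rw [e, abs_mul, abs_of_pos hL]
    exact (mul_le_mul_iff_left₀ hL).symm
  · intro h n hn
    apply h
    rcases Nat.eq_zero_or_pos n with h7 | h7
    · subst h7
      simp at hn
      omega
    · exact h7
  · intro h
    apply hcrit k hk (fun _ => 0) tendsto_const_nhds
    apply Eventually.frequently
    apply Eventually.of_forall
    intro N
    have : {n : ℕ | 1 ≤ n ∧ n ≤ N ∧ cardFactors n = k ∧ ¬ ∃ t, IsTotalStoppingTime n t} = ∅ := by
      rw [Set.eq_empty_iff_forall_notMem]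
      rintro n ⟨-, -, h7, h8⟩
      exact h8 (h n h7)
    rw [this]
    simp

end Pool.Agent.Results.MP_f7abf1_nt.TimesExactlyKPrimes
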