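import Pool.Agent.U457.PS.Prim

set_option autoImplicit false

/-!
How often a trajectory of the `3x+1` function visits a given set before it reaches `1`: for almost all
`n` the scaled total stopping time is made of the terms outside any given set of logarithmic density
zero, with uniform bounds for sets of positive density and rates for thin sets.
-/

open Filter Topology

namespace Pool.Agent.Results.MP_f7abf1_nt.VisitsToSmallSets

open Pool.Agent.U457.PS

/-- the `3x+1` function -/
def T (n : ℕ) : ℕ := if n % 2 = 0 then n / 2 else (3 * n + 1) / 2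

/-- `t` is the total stopping time of `n` -/
def IsTotalStoppingTime (n t : ℕ) : Prop := T^[t] n = 1 ∧ ∀ j < t, T^[j] n ≠ 1

/-- the number of the indices `j < t` with `T^j n` in `E` -/
noncomputable def visits (E : Set ℕ) (t n : ℕ) : ℕ := {j : ℕ | j < t ∧ T^[j] n ∈ E}.ncard

open scoped Classical in
/-- the sum of the reciprocals of the `e` in `E` with `1 ≤ e ≤ N` -/
noncomputable def recip (E : Set ℕ) (N : ℕ) : ℝ :=
  ∑ e ∈ (Finset.Icc 1 N).filter (fun e => e ∈ E), (1 : ℝ) / e

/-- the number of the `n` with `1 ≤ n ≤ N` and `P n` -/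
noncomputable def count (P : ℕ → Prop) (N : ℕ) : ℝ := ({n : ℕ | 1 ≤ n ∧ n ≤ N ∧ P n}.ncard : ℝ)

/-- the positive integers with the property `P` have natural density zero -/
def Null (P : ℕ → Prop) : Prop := Tendsto (fun N : ℕ => count P N / N) atTop (𝓝 0)

/-- `n` has a total stopping time, and at least `x` of the terms before it are in `E` -/
def Many (E : Set ℕ) (x : ℝ) (n : ℕ) : Prop := ∃ t, IsTotalStoppingTime n t ∧ x ≤ visits E t n

/-- at least `x` terms of the trajectory of `n` are in `E` and come before the first term below `y` -/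
def ManyAbove (E : Set ℕ) (y x : ℝ) (n : ℕ) : Prop :=
  ∃ J : Finset ℕ, (∀ j ∈ J, T^[j] n ∈ E ∧ ∀ i ≤ j, y ≤ T^[i] n) ∧ x ≤ J.card

/-- (1) For every `B` there is `C` such that for all sets `E` of positive integers of upper logarithmic
density at most `δ > 0` (in the form: `recip E N ≤ δ log N` for all large `N`) and all `l > 0`: the upper
natural density of the `n` with finite total stopping time and at least `l log n` terms in `E` before
it is at most `C / (l (log (2 + 1 / δ))^B)`; the same for the `n`, of finite or infinite total stopping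
time, with at least `l log n` terms in `E` before the first term below `φ n`, for every `φ` which
tends to infinity.
(2) If `E` has logarithmic density zero, both sets have natural density zero.
(3) If `recip E N ≤ (log N)^(1 - c)` for large `N`, `0 < c < 1`, the `n` with finite total stopping time
and at least `log n / (log log n)^B` terms in `E` before it have natural density zero, for every `B`.
(4) In particular this holds for the set of the primes. -/
theorem result :
    (∀ B : ℕ, ∃ C : ℝ, 0 < C ∧ ∀ (E : Set ℕ) (δ : ℝ), 0 < δ →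
      (∀ᶠ N : ℕ in atTop, recip E N ≤ δ * Real.log N) → ∀ l : ℝ, 0 < l → ∀ ε : ℝ, 0 < ε →
        (∀ᶠ N : ℕ in atTop, count (fun n => Many E (l * Real.log n) n) N ≤
          (C / (l * (Real.log (2 + 1 / δ)) ^ B) + ε) * N) ∧
        ∀ φ : ℕ → ℝ, Tendsto φ atTop atTop →
          ∀ᶠ N : ℕ in atTop, count (fun n => ManyAbove E (φ n) (l * Real.log n) n) N ≤
            (C / (l * (Real.log (2 + 1 / δ)) ^ B) + ε) * N) ∧
    (∀ E : Set ℕ, Tendsto (fun N : ℕ => recip E N / Real.log N) atTop (𝓝 0) → ∀ l : ℝ, 0 < l →
      Null (fun n => Many E (l * Real.log n) n) ∧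
      ∀ φ : ℕ → ℝ, Tendsto φ atTop atTop → Null (fun n => ManyAbove E (φ n) (l * Real.log n) n)) ∧
    (∀ (E : Set ℕ) (c : ℝ), 0 < c → c < 1 → (∀ᶠ N : ℕ in atTop, recip E N ≤ (Real.log N) ^ (1 - c)) →
      ∀ B : ℕ, Null (fun n => Many E (Real.log n / (Real.log (Real.log n)) ^ B) n)) ∧
    (∀ B : ℕ, Null (fun n => Many {p | p.Prime} (Real.log n / (Real.log (Real.log n)) ^ B) n)) := by
  refine ⟨?_, ?_, ?_, ?_⟩
  · intro B
    obtain ⟨C, hC, h⟩ := vis_uniform B
    refine ⟨C, hC, ?_⟩
    intro E δ hδ hE l hl ε hε
    refine ⟨?_, ?_⟩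
    · exact h E δ hδ hE l hl _ (Forces_total E _) ε hε
    · intro φ hφ
      exact h E δ hδ hE l hl _ (Forces_level E _ φ hφ) ε hε
  · intro E hE l hl
    refine ⟨?_, ?_⟩
    · exact vis_null E hE hl _ (Forces_total E _)
    · intro φ hφ
      exact vis_null E hE hl _ (Forces_level E _ φ hφ)
  · intro E c hc hc1 hE B
    exact dens_zero (vis_rate E (c := c / 2) (by positivity) (by linarith)
      (DE_of_rec_rate hc hc1 hE) B _ (Forces_total E _))
  · intro B
    exact dens_zero (vis_rate {p : ℕ | p.Prime} (c := 1 / 2) (by norm_num) (by norm_num)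
      DE_primes B _ (Forces_total _ _))

end Pool.Agent.Results.MP_f7abf1_nt.VisitsToSmallSets
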