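import Pool.Agent.U142.WG9
import Pool.Agent.W36.JL.K4

set_option autoImplicit false

/-!
# Waring's problem with variables of prescribed total stopping times

Let `δ` be the density of the positive integers whose trajectory under the 3x+1 map reaches `1` (it is
known that `0 < δ`, and that `δ = 1` if and only if all of them do). We show that in Waring's problem, and
for general diagonal equations, the normalized total stopping times of the variables are
asymptotically independent and normal, jointly with the residue classes of the total stopping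
times modulo any numbers, with the straight profile of the whole trajectory, and with the variables of
infinite total stopping time.

Proof: the balanced indicator functions of the level sets of the total stopping time in residue classes
belong to a class with small Gowers norms (starting files `W36/JL`), so these sets are orthogonal to
polynomial phases; this property (`Orth` in `U142/WG8.lean`) is stable under differences, complements and
changes of density zero, and transfers to diagonal equations by the circle method (`U142/WG1-WG8`).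
-/

namespace Pool.Agent.Results.MP_f7abf1_nt.WaringLaw

open Filter Topology Polynomial

/-- The 3x+1 map. -/
def T (n : ℕ) : ℕ := if n % 2 = 0 then n / 2 else (3 * n + 1) / 2

/-- `t` is the total stopping time of `n`. -/
def IsTotalStoppingTime (n t : ℕ) : Prop := T^[t] n = 1 ∧ ∀ j < t, T^[j] n ≠ 1

/-- The total stopping time of `n` is infinite. -/
def NeverOne (n : ℕ) : Prop := ∀ t : ℕ, T^[t] n ≠ 1

/-- The set `A` has natural density `δ`. -/
def HasDensity (A : Set ℕ) (δ : ℝ) : Prop :=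
  Tendsto (fun N : ℕ => ({n : ℕ | 1 ≤ n ∧ n ≤ N ∧ n ∈ A}.ncard : ℝ) / N) atTop (𝓝 δ)

/-- `2 log n / log (4/3) + x log 3 √(2 log n / log (4/3) ^ 3)`, the threshold of the normal law. -/
noncomputable def bound (x : ℝ) (n : ℕ) : ℝ :=
  2 / Real.log (4 / 3) * Real.log n + x * (Real.log 3 * Real.sqrt (2 * Real.log n / Real.log (4 / 3) ^ 3))

/-- The integers `n` whose total stopping time `t` is finite, congruent to `a` modulo `m`, with
normalized value in `(y, x]`, and such that the whole trajectory is straight up to `ε log n`. -/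
def Window (m : ℕ) (a : ℤ) (y x ε : ℝ) : Set ℕ :=
  {n | ∃ t : ℕ, IsTotalStoppingTime n t ∧ bound y n < t ∧ (t : ℝ) ≤ bound x n ∧ (t : ℤ) ≡ a [ZMOD m] ∧
    ∀ j ≤ t, |Real.log ((T^[j] n : ℕ) : ℝ) - (Real.log n - j / 2 * Real.log (4 / 3))| ≤ ε * Real.log n}

/-- The distribution function of the standard normal distribution. -/
noncomputable def Phi (x : ℝ) : ℝ := ProbabilityTheory.cdf (ProbabilityTheory.gaussianReal 0 1) x

open Classical in
/-- The condition for the variable number `i`: infinite total stopping time if `i ∈ I`, a window if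
`i ∉ I`. -/
noncomputable def Cond {s : ℕ} (I : Finset (Fin s)) (m : Fin s → ℕ) (a : Fin s → ℤ) (y x : Fin s → ℝ) (ε : ℝ)
    (i : Fin s) : Set ℕ :=
  if i ∈ I then {n | NeverOne n} else Window (m i) (a i) (y i) (x i) ε

open Classical in
/-- The limit of the proportion of the representations. -/
noncomputable def limit (δ : ℝ) {s : ℕ} (I : Finset (Fin s)) (m : Fin s → ℕ) (y x : Fin s → ℝ) : ℝ :=
  ∏ i, if i ∈ I then 1 - δ else δ * (Phi (x i) - Phi (y i)) / m i

/-- The number of `z` with `z 1 ^ k + ⋯ + z s ^ k = n` and positive integers `z i` in `A i`. -/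
noncomputable def Reps (k s n : ℕ) (A : Fin s → Set ℕ) : ℕ :=
  {z : Fin s → ℕ | (∀ i, 1 ≤ z i ∧ z i ∈ A i) ∧ ∑ i, z i ^ k = n}.ncard

/-- The number of `z` with `b 1 P (z 1) + ⋯ + b s P (z s) = M` and positive integers `z i ≤ l i` in
`A i`. -/
noncomputable def Solutions (P : ℤ[X]) {s : ℕ} (b : Fin s → ℤ) (l : Fin s → ℕ) (A : Fin s → Set ℕ) (M : ℤ) : ℕ :=
  {z : Fin s → ℕ | (∀ i, 1 ≤ z i ∧ z i ≤ l i ∧ z i ∈ A i) ∧ ∑ i, b i * P.eval ((z i : ℕ) : ℤ) = M}.ncard

open Pool.Agent.H499R2.ND (Tn Bas Bas_inv Dn bas_zd bas_profile zd_mono phi_cdf)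
open Pool.Agent.W36.JL (EB bd TS TS_unique lawE Phi_lt)
open Pool.Agent.U142.WG

theorem Phi_eq (x : ℝ) : Pool.Agent.H499R2.ND.Phi x = Phi x := phi_cdf x

theorem mono_Phi {y x : ℝ} (h : y ≤ x) : Phi y ≤ Phi x := by
  rcases h.eq_or_lt with h | h
  · rw [h]
  · rw [← Phi_eq, ← Phi_eq]
    exact (Phi_lt h).le

theorem orth_window (P : ℤ[X]) {δ : ℝ} (hδ0 : 0 < δ) (hδ1 : δ ≤ 1) (hδ : Dn Bas δ)
    (hlaw : ∀ (m : ℕ) (a : ℤ), 1 ≤ m → ∀ x : ℝ, Dn (fun n => EB m a (bd x n) n) (δ * Pool.Agent.H499R2.ND.Phi x / m))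
    {m : ℕ} (hm : 1 ≤ m) (a : ℤ) {y x : ℝ} (hyx : y ≤ x) {ε : ℝ} (hε : 0 < ε) :
    Orth P (Window m a y x ε) (δ * (Phi x - Phi y) / m) := by
  have hm0 : (0 : ℝ) < m := by exact_mod_cast hm
  have h1 := orth_level P hδ0 hδ1 hm (fun a x => hlaw m a hm x) a x
  have h2 := orth_level P hδ0 hδ1 hm (fun a x => hlaw m a hm x) a y
  have hmono := mono_Phi hyx
  have hbd : ∀ n : ℕ, bd y n ≤ bd x n := by
    intro n
    unfold bd
    have : (0 : ℝ) ≤ Real.log 3 * Real.sqrt (2 * Real.log n / Real.log (4 / 3) ^ 3) :=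
      mul_nonneg (Real.log_nonneg (by norm_num)) (Real.sqrt_nonneg _)
    have := mul_le_mul_of_nonneg_right hyx this
    linarith
  have h3 := h1.diff h2 (fun n hn => Pool.Agent.W36.JL.EB_mono (hbd n) hn) (by
    rw [Phi_eq, Phi_eq]
    gcongr)
  have e : δ * Pool.Agent.H499R2.ND.Phi x / m - δ * Pool.Agent.H499R2.ND.Phi y / m = δ * (Phi x - Phi y) / m := by
    rw [Phi_eq, Phi_eq]; ring
  rw [e] at h3
  have h4 := bas_zd hδ (Q := fun n : ℕ => ∃ t : ℕ, Tn^[t] n = 1 ∧ (∀ j < t, Tn^[j] n ≠ 1) ∧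
      |(t : ℝ) - 2 / Real.log (4 / 3) * Real.log n| ≤ ε * Real.log n ∧
      ∀ j ≤ t, |Real.log ((Tn^[j] n : ℕ) : ℝ) - (Real.log n - j / 2 * Real.log (4 / 3))|
        ≤ ε * Real.log n) (fun n _ ⟨t, ht, _⟩ => ⟨t, ht⟩) (bas_profile hδ hε)
  have h5 := h3.inter (Q := fun n : ℕ => ∃ t : ℕ, Tn^[t] n = 1 ∧ (∀ j < t, Tn^[j] n ≠ 1) ∧
      ∀ j ≤ t, |Real.log ((Tn^[j] n : ℕ) : ℝ) - (Real.log n - j / 2 * Real.log (4 / 3))|
        ≤ ε * Real.log n) (zd_mono h4 fun n _ hn => by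
    obtain ⟨⟨⟨t, ht1, ht2, ht3⟩, -⟩, hn2⟩ := hn
    refine ⟨⟨t, ht2.1⟩, fun ⟨t', h1, h2, h3, h4⟩ => hn2 ⟨t', h1, h2, h4⟩⟩)
  have e2 : Window m a y x ε = {n | n ∈ {n | EB m a (bd x n) n} \ {n | EB m a (bd y n) n} ∧
      ∃ t : ℕ, Tn^[t] n = 1 ∧ (∀ j < t, Tn^[j] n ≠ 1) ∧
      ∀ j ≤ t, |Real.log ((Tn^[j] n : ℕ) : ℝ) - (Real.log n - j / 2 * Real.log (4 / 3))|
        ≤ ε * Real.log n} := by
    ext n
    constructor
    · rintro ⟨t, ht, h1, h2, h3, h4⟩
      refine ⟨⟨⟨t, h2, ht, h3⟩, ?_⟩, t, ht.1, ht.2, h4⟩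
      rintro ⟨t', g1, g2, g3⟩
      have : t' = t := TS_unique g2 ht
      rw [this] at g1
      exact absurd h1 (not_lt.2 g1)
    · rintro ⟨⟨⟨t, h2, ht, h3⟩, h1⟩, t', g1, g2, g3⟩
      have : t' = t := TS_unique ⟨g1, g2⟩ ht
      subst this
      exact ⟨t', ht, not_le.1 fun h => h1 ⟨t', h, ht, h3⟩, h2, h3, g3⟩
  rw [e2]
  exact h5

theorem orth_never (P : ℤ[X]) {δ : ℝ} (hδ : Dn Bas δ) : Orth P {n | NeverOne n} (1 - δ) := by
  have h1 := (orth_inv P (R := Bas) (fun n _ => Bas_inv n) hδ).compl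
  have e : ({n | Bas n} : Set ℕ)ᶜ = {n | NeverOne n} := by
    ext n
    constructor
    · intro h t ht
      exact h ⟨t, ht⟩
    · rintro h ⟨t, ht⟩
      exact h t ht
  rw [← e]
  exact h1

theorem exists_of {k s n : ℕ} {A : Fin s → Set ℕ} (h : (0 : ℝ) < Reps k s n A) :
    ∃ x : Fin s → ℕ, (∀ i, 1 ≤ x i ∧ x i ∈ A i) ∧ ∑ i, x i ^ k = n := by
  have h1 : 0 < Reps k s n A := by exact_mod_cast h
  unfold Reps at h1
  exact (Set.ncard_pos (Set.finite_of_ncard_pos h1)).1 h1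

/-- Let `δ` be the density of the positive integers `n` with `σ∞(n) < ∞`, for the total stopping time
`σ∞`; it is known that `0 < δ ≤ 1`, with `δ = 1` if and only if `σ∞(n) < ∞` for all `n`.
(A) Let `k ≥ 1` and `s ≥ s₀(k)`. (1) Every large integer `n` has at least `c n ^ (s / k - 1)`
representations `n = z 1 ^ k + ⋯ + z s ^ k` with positive integers `z i` (known). (2) Let `I` be a set of
indices, and for each `i` let `m i ≥ 1` and `a i` be integers and let `y i ≤ x i` be real numbers. Among the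
representations of `n` the proportion of those with `σ∞(z i) = ∞` for all `i ∈ I`, and for all `i ∉ I` with
`σ∞(z i) < ∞`, `σ∞(z i) ≡ a i (mod m i)`, normalized total stopping time
`(σ∞(z i) - μ log z i) / (σ √log z i)` in `(y i, x i]` and `log T^j(z i) = log z i - (j/2) log (4/3)` up to
`ε log z i` for all `j ≤ σ∞(z i)`, tends to `∏_{i ∈ I} (1 - δ) ∏_{i ∉ I} δ (Φ(x i) - Φ(y i)) / m i` as
`n → ∞`. (3) If `y i < x i`, and if some positive integer has an infinite total stopping time in the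
case that `I` is not empty, then every large `n` has such a representation.
(B) The same as (2) for the number of the solutions of `b 1 P (z 1) + ⋯ + b s P (z s) = M` with
`z i ≤ l i ≤ L`, for every nonconstant integer polynomial `P` and `s ≥ s₀(P)`, uniformly in the nonzero
integers `b i`, the integers `M` and the `l i`, with an error `κ L ^ (s - deg P)`. -/
theorem result :
    ∃ δ : ℝ, 0 < δ ∧ δ ≤ 1 ∧ (δ = 1 ↔ ∀ n : ℕ, 1 ≤ n → ¬ NeverOne n) ∧ HasDensity {n | ¬ NeverOne n} δ ∧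
    (∀ k : ℕ, 1 ≤ k → ∃ s₀ : ℕ, ∀ s : ℕ, s₀ ≤ s →
      (∃ c : ℝ, 0 < c ∧ ∃ n₀ : ℕ, ∀ n : ℕ, n₀ ≤ n →
        c * (n : ℝ) ^ ((s : ℝ) / k - 1) ≤ Reps k s n (fun _ => Set.univ)) ∧
      ∀ (I : Finset (Fin s)) (m : Fin s → ℕ) (a : Fin s → ℤ) (y x : Fin s → ℝ), (∀ i, 1 ≤ m i) →
        (∀ ε : ℝ, 0 < ε → (∀ i, y i ≤ x i) → ∀ κ : ℝ, 0 < κ → ∃ n₀ : ℕ, ∀ n : ℕ, n₀ ≤ n →
          |(Reps k s n (Cond I m a y x ε) : ℝ) - limit δ I m y x * Reps k s n (fun _ => Set.univ)| ≤
            κ * Reps k s n (fun _ => Set.univ)) ∧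
        (∀ ε : ℝ, 0 < ε → (∀ i, y i < x i) → (I.Nonempty → ∃ n : ℕ, 1 ≤ n ∧ NeverOne n) →
          ∃ n₀ : ℕ, ∀ n : ℕ, n₀ ≤ n →
          ∃ z : Fin s → ℕ, (∀ i, 1 ≤ z i ∧ z i ∈ Cond I m a y x ε i) ∧ ∑ i, z i ^ k = n)) ∧
    (∀ P : ℤ[X], 1 ≤ P.natDegree → ∃ s₀ : ℕ, ∀ s : ℕ, s₀ ≤ s →
      ∀ (I : Finset (Fin s)) (m : Fin s → ℕ) (a : Fin s → ℤ) (y x : Fin s → ℝ), (∀ i, 1 ≤ m i) → (∀ i, y i ≤ x i) →
      ∀ ε : ℝ, 0 < ε → ∀ κ : ℝ, 0 < κ → ∃ L₀ : ℕ, ∀ L : ℕ, L₀ ≤ L → ∀ l : Fin s → ℕ, (∀ i, l i ≤ L) →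
      ∀ b : Fin s → ℤ, (∀ i, b i ≠ 0) → ∀ M : ℤ,
      |(Solutions P b l (Cond I m a y x ε) M : ℝ) - limit δ I m y x * Solutions P b l (fun _ => Set.univ) M| ≤
        κ * (L : ℝ) ^ s / (L : ℝ) ^ P.natDegree) := by
  classical
  obtain ⟨δ, hδ0, hδ1, hδ2, hδ3, hlaw⟩ := lawE
  have key : ∀ (P : ℤ[X]) {s : ℕ} (I : Finset (Fin s)) (m : Fin s → ℕ) (a : Fin s → ℤ) (y x : Fin s → ℝ),
      (∀ i, 1 ≤ m i) → (∀ i, y i ≤ x i) → ∀ ε : ℝ, 0 < ε → ∀ i, Orth P (Cond I m a y x ε i)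
        (if i ∈ I then 1 - δ else δ * (Phi (x i) - Phi (y i)) / m i) := by
    intro P s I m a y x hm hyx ε hε i
    unfold Cond
    by_cases hi : i ∈ I
    · rw [if_pos hi, if_pos hi]
      exact orth_never P hδ3
    · rw [if_neg hi, if_neg hi]
      exact orth_window P hδ0 hδ1 hδ3 hlaw (hm i) (a i) (hyx i) hε
  have hNever : ∀ n, NeverOne n ↔ ¬ ∃ k : ℕ, Tn^[k] n = 1 := by
    intro n
    constructor
    · rintro h ⟨k, hk⟩; exact h k hk
    · intro h t ht; exact h ⟨t, ht⟩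
  have hδ2' : δ = 1 ↔ ∀ n : ℕ, 1 ≤ n → ¬ NeverOne n := by
    rw [hδ2]
    constructor
    · intro h n hn h'
      exact (hNever n).1 h' (h n hn)
    · intro h n hn
      by_contra h'
      exact h n hn ((hNever n).2 h')
  refine ⟨δ, hδ0, hδ1, hδ2', ?_, fun k hk => ?_, fun P hP => ?_⟩
  · have e : (fun N : ℕ => ({n : ℕ | 1 ≤ n ∧ n ≤ N ∧ n ∈ {n | ¬ NeverOne n}}.ncard : ℝ) / N) =
        fun N : ℕ => Pool.Agent.H499R2.ND.cnt (fun n => ∃ k : ℕ, Tn^[k] n = 1) N / N := by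
      funext N
      unfold Pool.Agent.H499R2.ND.cnt
      congr 3
      ext n
      simp only [Set.mem_ofPred_eq]
      rw [hNever n, not_not]
    unfold HasDensity
    rw [e]
    exact hδ3
  · obtain ⟨s₁, H1⟩ := waring_lower k hk
    obtain ⟨s₂, H2⟩ := orth_waring k hk
    refine ⟨s₁ + s₂, fun s hs => ⟨H1 s (by omega), fun I m a y x hm => ⟨fun ε hε hyx κ hκ => ?_, fun ε hε hyx hI => ?_⟩⟩⟩
    · exact H2 s (by omega) _ _ (key (X ^ k) I m a y x hm hyx ε hε) κ hκ
    · obtain ⟨c, hc, n₁, h1⟩ := H1 s (by omega)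
      have hlim : 0 < limit δ I m y x := by
        unfold limit
        apply Finset.prod_pos
        intro i _
        by_cases hi : i ∈ I
        · rw [if_pos hi]
          obtain ⟨n, hn1, hn2⟩ := hI ⟨i, hi⟩
          have : δ ≠ 1 := fun h => hδ2'.1 h n hn1 hn2
          have := lt_of_le_of_ne hδ1 this
          linarith
        · rw [if_neg hi]
          have h2 : Phi (y i) < Phi (x i) := by
            rw [← Phi_eq, ← Phi_eq]; exact Phi_lt (hyx i)
          have hm0 : (0 : ℝ) < m i := by exact_mod_cast hm i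
          have : 0 < Phi (x i) - Phi (y i) := by linarith
          positivity
      obtain ⟨n₂, h2⟩ := H2 s (by omega) _ _ (key (X ^ k) I m a y x hm (fun i => (hyx i).le) ε hε)
        (limit δ I m y x / 2) (by positivity)
      refine ⟨n₁ + n₂ + 1, fun n hn => ?_⟩
      have h3 := h1 n (by omega)
      have h4 := (abs_le.1 (h2 n (by omega))).1
      have hn0 : (0 : ℝ) < n := by exact_mod_cast (by omega : 0 < n)
      have hR : (0 : ℝ) < reps k s n (fun _ => Set.univ) :=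
        lt_of_lt_of_le (mul_pos hc (Real.rpow_pos_of_pos hn0 _)) h3
      have h5 : (0 : ℝ) < limit δ I m y x / 2 * reps k s n (fun _ => Set.univ) := by positivity
      have h6 : (∏ i, if i ∈ I then 1 - δ else δ * (Phi (x i) - Phi (y i)) / m i) = limit δ I m y x := by
        unfold limit
        rfl
      rw [h6] at h4
      exact exists_of (k := k) (s := s) (n := n) (A := Cond I m a y x ε) (by
        show (0 : ℝ) < reps k s n (Cond I m a y x ε)
        linarith)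
  · obtain ⟨s₀, H⟩ := orth_diag P hP
    refine ⟨s₀, fun s hs I m a y x hm hyx ε hε κ hκ => ?_⟩
    obtain ⟨L₀, h⟩ := H s hs _ _ (key P I m a y x hm hyx ε hε) κ hκ
    refine ⟨L₀ + 1, fun L hL l hl b hb M => ?_⟩
    have hL0 : (0 : ℝ) < L := by exact_mod_cast (by omega : 0 < L)
    rw [le_div_iff₀ (by positivity)]
    exact h L (by omega) l hl b hb M

end Pool.Agent.Results.MP_f7abf1_nt.WaringLaw
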